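import Pool.Agent.Q106.CogTilt

/-!
# Normal subgroups with maximal cogrowth have the multivariate growth of the free group

The definitions (`par`, `nrm`, `nu`, `tau`, `IsOpenCone`, `psi`) are in `Pool.Agent.Q106.CogDef`.
-/

namespace Pool.Agent.Results.MP_dc78ae_al.MaximalCogrowth

open Finset Filter Topology Pool.Agent.Q106.Cog

open scoped ENNReal NNReal

variable {m : ℕ}

theorem isOpenCone_univ : IsOpenCone (Set.univ : Set (Fin m → ℝ)) :=
  ⟨isOpen_univ, fun _ _ _ _ => trivial⟩

theorem AA_eq_ZH {G : Type*} [Group G] (x : Fin m → ℝ) (π : F m →* G) :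
    AA x π 1 = ZH π.ker x := by
  rw [AA, ZH]
  rfl

/-- a subgroup whose generating function converges somewhere above the critical surface has
non-maximal cogrowth -/
theorem not_maximal {G : Type*} [Group G] {x : Fin m → ℝ} (hx : ∀ i, 0 < x i ∧ x i < 1)
    (hm : 2 ≤ m) (h : 1 < ∑ i, 2 * x i / (1 + x i)) {π : F m →* G}
    (hπ : Function.Surjective π) (h1 : AA x π 1 < ⊤) (r : Fin m → ℝ) :
    psi π.ker r < ((Real.log (2 * m - 1) : ℝ) : EReal) := by
  obtain ⟨th, C, hth, hth2, hC, hkc⟩ := cogrowth_bound hx hm h hπ h1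
  refine (psi_le_tau isOpenCone_univ (Set.mem_univ r)).trans_lt ?_
  refine lt_of_le_of_lt (tau_le_of_bound (Real.log C + Real.log th) (Real.log th) ?_)
    (by exact_mod_cast Real.log_lt_log (by linarith) hth2)
  filter_upwards [eventually_ge_atTop (0 : ℝ)] with R hR
  have h2 : nu π.ker ({v | R ≤ nrm v ∧ nrm v < R + 1} ∩ Set.univ) ≤ kc π ⌈R⌉₊ := by
    rw [nu, kc]
    have : {w : FreeGroup (Fin m) | w ∈ π.ker ∧ par w ∈
        ({v | R ≤ nrm v ∧ nrm v < R + 1} ∩ Set.univ : Set (Fin m → ℝ))} ⊆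
        {w : F m | w ∈ π.ker ∧ len w = ⌈R⌉₊} := by
      rintro w ⟨hw, ⟨h3, h4⟩, -⟩
      rw [nrm_par] at h3 h4
      refine ⟨hw, le_antisymm ?_ (Nat.ceil_le.2 h3)⟩
      have h5 : (len w : ℝ) < (⌈R⌉₊ : ℝ) + 1 := h4.trans_le (by linarith [Nat.le_ceil R])
      have h6 : len w < ⌈R⌉₊ + 1 := by exact_mod_cast h5
      omega
    exact_mod_cast Set.encard_le_encard this
  refine (h2.trans (hkc _)).trans (ENNReal.ofReal_le_ofReal ?_)
  have h7 : Real.exp (Real.log C + Real.log th + Real.log th * R) =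
      C * Real.exp (Real.log th * (R + 1)) := by
    rw [add_assoc, Real.exp_add, Real.exp_log hC]
    congr 2
    ring
  have h8 : th ^ ⌈R⌉₊ = Real.exp (Real.log th * ⌈R⌉₊) := by
    rw [mul_comm, Real.exp_nat_mul, Real.exp_log (by linarith)]
  rw [h7, h8]
  apply mul_le_mul_of_nonneg_left _ hC.le
  rw [Real.exp_le_exp]
  exact mul_le_mul_of_nonneg_left (Nat.ceil_lt_add_one hR).le (Real.log_nonneg hth.le)

/-- Q1 -/
theorem q1 (hm : 2 ≤ m) (N : Subgroup (FreeGroup (Fin m))) [N.Normal]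
    (hN : IsGreatest (psi N '' stdSimplex ℝ (Fin m)) ((Real.log (2 * m - 1) : ℝ) : EReal)) :
    ∀ r ∈ stdSimplex ℝ (Fin m), psi N r = psi (⊤ : Subgroup (FreeGroup (Fin m))) r := by
  have hdiv : Dv N := by
    intro x hx h
    by_contra hne
    obtain ⟨r, -, hr⟩ := hN.1
    have h1 : AA x (QuotientGroup.mk' N) 1 < ⊤ := by
      rw [AA_eq_ZH, QuotientGroup.ker_mk']
      exact lt_top_iff_ne_top.2 hne
    have h2 := not_maximal hx hm h (QuotientGroup.mk'_surjective N) h1 r
    rw [QuotientGroup.ker_mk', hr] at h2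
    exact lt_irrefl _ h2
  exact fun r hr => psi_eq hm hdiv hr

/-! ### The commutator subgroup -/

/-- the abelianization -/
def pi2 : FreeGroup (Fin 2) →* Multiplicative (ℤ × ℤ) :=
  FreeGroup.lift fun i => Multiplicative.ofAdd (if i = 0 then (1, 0) else (0, 1))

/-- the vector of a letter -/
def vec (a : Let 2) : ℤ × ℤ :=
  if a.1 = 0 then (if a.2 then (1, 0) else (-1, 0)) else (if a.2 then (0, 1) else (0, -1))

theorem pi2_el (a : Let 2) : pi2 (el a) = Multiplicative.ofAdd (vec a) := by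
  obtain ⟨i, b⟩ := a
  fin_cases i <;> cases b <;> simp [pi2, el, vec, FreeGroup.lift_mk] <;> rfl

theorem pi2_surjective : Function.Surjective pi2 := by
  intro g
  refine ⟨FreeGroup.of 0 ^ (g.toAdd).1 * FreeGroup.of 1 ^ (g.toAdd).2, ?_⟩
  rw [map_mul, map_zpow, map_zpow]
  have h0 : pi2 (FreeGroup.of 0) = Multiplicative.ofAdd (1, 0) := by
    rw [pi2, FreeGroup.lift_apply_of]; rfl
  have h1 : pi2 (FreeGroup.of 1) = Multiplicative.ofAdd (0, 1) := by
    rw [pi2, FreeGroup.lift_apply_of]; rfl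
  rw [h0, h1, ← ofAdd_zsmul, ← ofAdd_zsmul, ← ofAdd_add]
  apply Multiplicative.toAdd.injective
  rw [toAdd_ofAdd]
  ext <;> simp

theorem ker_pi2 : pi2.ker = commutator (FreeGroup (Fin 2)) := by
  apply le_antisymm
  · intro w hw
    rw [← Abelianization.ker_of, MonoidHom.mem_ker]
    let α : Abelianization (FreeGroup (Fin 2)) := Abelianization.of (FreeGroup.of 0)
    let β : Abelianization (FreeGroup (Fin 2)) := Abelianization.of (FreeGroup.of 1)
    let σ : Multiplicative (ℤ × ℤ) →* Abelianization (FreeGroup (Fin 2)) :=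
      { toFun := fun g => α ^ g.toAdd.1 * β ^ g.toAdd.2
        map_one' := by simp
        map_mul' := by
          intro g h
          rw [toAdd_mul, Prod.fst_add, Prod.snd_add, zpow_add, zpow_add]
          exact mul_mul_mul_comm _ _ _ _ }
    have hσ : σ.comp pi2 = Abelianization.of := by
      ext i
      rw [MonoidHom.comp_apply, pi2, FreeGroup.lift_apply_of]
      fin_cases i
      · change α ^ (1 : ℤ) * β ^ (0 : ℤ) = α
        simp
      · change α ^ (0 : ℤ) * β ^ (1 : ℤ) = β
        simp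
    rw [← hσ, MonoidHom.comp_apply, MonoidHom.mem_ker.1 hw, map_one]
  · exact Abelianization.commutator_subset_ker pi2

/-- the box -/
noncomputable def box (n : ℕ) : Finset (ℤ × ℤ) := Finset.Ico (0 : ℤ) n ×ˢ Finset.Ico (0 : ℤ) n

theorem card_box (n : ℕ) : (box n).card = n * n := by
  simp [box]

theorem card_shift (n : ℕ) (a : Let 2) :
    (n + 1) * n ≤ ((box (n + 1)).filter fun g => vec a + g ∈ box (n + 1)).card := by
  have key : ∀ a1 a2 b1 b2 : ℤ, (Finset.Ico a1 a2 ×ˢ Finset.Ico b1 b2).card =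
      (a2 - a1).toNat * (b2 - b1).toNat := by
    intro a1 a2 b1 b2
    simp
  obtain ⟨i, b⟩ := a
  fin_cases i <;> cases b
  · refine le_trans (le_of_eq ?_) (card_le_card (s := Finset.Ico (1 : ℤ) (n + 1) ×ˢ
      Finset.Ico (0 : ℤ) (n + 1)) ?_)
    · rw [key]
      have h1 : ((n : ℤ) + 1 - 1).toNat = n := by omega
      have h2 : ((n : ℤ) + 1 - 0).toNat = n + 1 := by omega
      rw [h1, h2, mul_comm]
    · intro g hg
      simp only [box, mem_product, mem_Ico, mem_filter, vec] at hg ⊢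
      simp
      omega
  · refine le_trans (le_of_eq ?_) (card_le_card (s := Finset.Ico (0 : ℤ) n ×ˢ
      Finset.Ico (0 : ℤ) (n + 1)) ?_)
    · rw [key]
      have h1 : ((n : ℤ) - 0).toNat = n := by omega
      have h2 : ((n : ℤ) + 1 - 0).toNat = n + 1 := by omega
      rw [h1, h2, mul_comm]
    · intro g hg
      simp only [box, mem_product, mem_Ico, mem_filter, vec] at hg ⊢
      simp
      omega
  · refine le_trans (le_of_eq ?_) (card_le_card (s := Finset.Ico (0 : ℤ) (n + 1) ×ˢ
      Finset.Ico (1 : ℤ) (n + 1)) ?_)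
    · rw [key]
      have h1 : ((n : ℤ) + 1 - 1).toNat = n := by omega
      have h2 : ((n : ℤ) + 1 - 0).toNat = n + 1 := by omega
      rw [h1, h2]
    · intro g hg
      simp only [box, mem_product, mem_Ico, mem_filter, vec] at hg ⊢
      simp
      omega
  · refine le_trans (le_of_eq ?_) (card_le_card (s := Finset.Ico (0 : ℤ) (n + 1) ×ˢ
      Finset.Ico (0 : ℤ) n) ?_)
    · rw [key]
      have h1 : ((n : ℤ) - 0).toNat = n := by omega
      have h2 : ((n : ℤ) + 1 - 0).toNat = n + 1 := by omega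
      rw [h1, h2]
    · intro g hg
      simp only [box, mem_product, mem_Ico, mem_filter, vec] at hg ⊢
      simp
      omega

theorem dv_commutator : Dv (commutator (FreeGroup (Fin 2))) := by
  intro x hx h
  by_contra hne
  have hfin : AA x pi2 1 < ⊤ := by
    rw [AA_eq_ZH, ker_pi2]
    exact lt_top_iff_ne_top.2 hne
  have hsub := DD_sub hx
  set S : ℝ := ∑ a : Let 2, cc x a.1 with hS
  have hS0 : 0 ≤ S := sum_nonneg fun a _ => (cc_pos hx _).le
  have hD := DD_pos hx
  have key : ∀ n : ℕ, S * ((n + 1) * n) ≤ DD x * ((n + 1) * (n + 1)) := by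
    intro n
    let φ : Multiplicative (ℤ × ℤ) → ℝ≥0 := fun g => if g.toAdd ∈ box (n + 1) then 1 else 0
    have h1 := schur hx pi2_surjective hfin φ φ
    have h2 : ∑' g, (φ g : ℝ≥0∞) ^ 2 = ENNReal.ofReal ((n + 1) * (n + 1)) := by
      rw [← (Multiplicative.ofAdd (α := ℤ × ℤ)).tsum_eq]
      rw [tsum_eq_sum (s := box (n + 1))]
      · have : ∀ g ∈ box (n + 1), ((φ (Multiplicative.ofAdd g) : ℝ≥0) : ℝ≥0∞) ^ 2 = 1 := by
          intro g hg
          have : φ (Multiplicative.ofAdd g) = 1 := if_pos hg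
          rw [this]
          simp
        rw [sum_congr rfl this, sum_const, card_box, nsmul_eq_mul, mul_one]
        rw [← ENNReal.ofReal_natCast]
        push_cast
        rfl
      · intro g hg
        have : φ (Multiplicative.ofAdd g) = 0 := if_neg hg
        rw [this]
        simp
    have h3 : ∀ a : Let 2, ENNReal.ofReal ((n + 1) * n) ≤
        ∑' g, ((φ g : ℝ≥0∞) * φ (pi2 (el a) * g)) := by
      intro a
      rw [← (Multiplicative.ofAdd (α := ℤ × ℤ)).tsum_eq]
      refine le_trans ?_ (ENNReal.sum_le_tsum ((box (n + 1)).filter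
        fun g => vec a + g ∈ box (n + 1)))
      have : ∀ g ∈ (box (n + 1)).filter (fun g => vec a + g ∈ box (n + 1)),
          ((φ (Multiplicative.ofAdd g) : ℝ≥0) : ℝ≥0∞) *
            φ (pi2 (el a) * Multiplicative.ofAdd g) = 1 := by
        intro g hg
        rw [mem_filter] at hg
        have e1 : φ (Multiplicative.ofAdd g) = 1 := if_pos hg.1
        have e2 : φ (pi2 (el a) * Multiplicative.ofAdd g) = 1 := by
          rw [pi2_el, ← ofAdd_add]
          exact if_pos hg.2
        rw [e1, e2]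
        simp
      rw [sum_congr rfl this, sum_const, nsmul_eq_mul, mul_one, ← ENNReal.ofReal_natCast]
      apply ENNReal.ofReal_le_ofReal
      exact_mod_cast card_shift n a
    have h4 : ENNReal.ofReal S * ENNReal.ofReal ((n + 1) * n) ≤
        ∑' g, ∑ a : Let 2, cE x a * ((φ g : ℝ≥0∞) * φ (pi2 (el a) * g)) := by
      rw [Summable.tsum_finsetSum fun _ _ => ENNReal.summable, hS, ← sum_cE hx, sum_mul]
      refine sum_le_sum fun a _ => ?_
      rw [ENNReal.tsum_mul_left]
      gcongr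
      exact h3 a
    have h5 : 2 * (ENNReal.ofReal S * ENNReal.ofReal ((n + 1) * n)) ≤
        dE x * (ENNReal.ofReal ((n + 1) * (n + 1)) + ENNReal.ofReal ((n + 1) * (n + 1))) := by
      rw [h2] at h1
      refine le_trans ?_ h1
      gcongr
    rw [dE, ← ENNReal.ofReal_mul hS0, ← ENNReal.ofReal_add (by positivity) (by positivity),
      ← ENNReal.ofReal_mul hD.le] at h5
    have h6 : (2 : ℝ≥0∞) = ENNReal.ofReal 2 := by simp
    rw [h6, ← ENNReal.ofReal_mul zero_le_two, ENNReal.ofReal_le_ofReal_iff (by positivity)] at h5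
    linarith
  have h7 : 0 < S - DD x := by linarith
  obtain ⟨n, hn⟩ := exists_nat_gt (DD x / (S - DD x))
  rw [div_lt_iff₀ h7] at hn
  have h8 := key n
  have h9 : (0 : ℝ) < (n : ℝ) + 1 := by positivity
  have h10 : S * n ≤ DD x * (n + 1) := by
    have h11 : (S * n) * (n + 1) ≤ (DD x * (n + 1)) * (n + 1) := by linarith
    exact le_of_mul_le_mul_right h11 h9
  linarith

/-- **Multivariate cogrowth.**  (Q1) For `m ≥ 2`, a normal subgroup `N` of the free group `F_m` for
which the maximum of `ψ_N` is `log (2 m - 1)` has `ψ_N = ψ_{F_m}` in every direction; (Q2) this is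
the case for the commutator subgroup of `F_2`. -/
theorem result :
    (∀ (m : ℕ), 2 ≤ m → ∀ N : Subgroup (FreeGroup (Fin m)), N.Normal →
      IsGreatest (psi N '' stdSimplex ℝ (Fin m)) ((Real.log (2 * m - 1) : ℝ) : EReal) →
      ∀ r ∈ stdSimplex ℝ (Fin m), psi N r = psi (⊤ : Subgroup (FreeGroup (Fin m))) r) ∧
    ∀ r ∈ stdSimplex ℝ (Fin 2), psi (commutator (FreeGroup (Fin 2))) r =
      psi (⊤ : Subgroup (FreeGroup (Fin 2))) r :=
  ⟨fun _ hm N _ hN => q1 hm N hN, fun _ hr => psi_eq le_rfl dv_commutator hr⟩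

end Pool.Agent.Results.MP_dc78ae_al.MaximalCogrowth
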